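import Mathlib

/-!
# The class of the Boolean `(m, 0)`-products has in general no smallest element

For every infinite cardinal `m`, and for every infinite set `T` of cardinality at most `m`, we consider
the family of the Boolean algebras `A_t`, `t ∈ T`, all equal to the Boolean algebra with four elements.
There is a minimal `(m, 0)`-product `M` of this family, and there is an `(m, 0)`-product `B` such that
no `(m, 0)`-product lies below both `M` and `B`. So the class of the `(m, 0)`-products of this
family has no smallest element; in particular no minimal product is the smallest product.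

The product `B` is the field of all subsets of the countable dense subset (for `T = ℕ`) of the Cantor
set consisting of the points with finitely many coordinates one.
-/

set_option autoImplicit false

universe u

namespace Pool.Agent.Results.MP_27bb78_al.NoSmallestProductH62

open Cardinal Set

/-- `B` is a Boolean `m`-algebra: every subset with at most `m` elements has a join and a meet. -/
def IsComplete (m : Cardinal.{u}) (B : Type u) [BooleanAlgebra B] : Prop :=
  ∀ s : Set B, #s ≤ m → (∃ a, IsLUB s a) ∧ ∃ a, IsGLB s a

/-- The Boolean homomorphism `h` is an `m`-homomorphism: it preserves all the existing joins and meets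
of at most `m` elements. -/
def IsMHom (m : Cardinal.{u}) {A B : Type u} [BooleanAlgebra A] [BooleanAlgebra B]
    (h : BoundedLatticeHom A B) : Prop :=
  ∀ s : Set A, #s ≤ m → (∀ a, IsLUB s a → IsLUB (h '' s) (h a)) ∧
    ∀ a, IsGLB s a → IsGLB (h '' s) (h a)

/-- The set `S` is closed under complements and under the existing joins and meets of at most `m`
elements. -/
def IsMClosed (m : Cardinal.{u}) {B : Type u} [BooleanAlgebra B] (S : Set B) : Prop :=
  (∀ b ∈ S, bᶜ ∈ S) ∧ ∀ s : Set B, s ⊆ S → #s ≤ m → (∀ a, IsLUB s a → a ∈ S) ∧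
    ∀ a, IsGLB s a → a ∈ S

/-- A Boolean `(m, 0)`-product of the family `A`. -/
structure BProduct (m : Cardinal.{u}) {T : Type u} (A : T → Type u) [∀ t, BooleanAlgebra (A t)] where
  /-- the algebra of the product -/
  B : Type u
  /-- it is a Boolean algebra -/
  [inst : BooleanAlgebra B]
  /-- the embeddings of the factors -/
  i : ∀ t, BoundedLatticeHom (A t) B
  /-- the algebra of the product is a Boolean `m`-algebra -/
  complete : IsComplete m B
  /-- the embeddings are injective -/
  injective : ∀ t, Function.Injective (i t)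
  /-- the embeddings are `m`-homomorphisms -/
  isMHom : ∀ t, IsMHom m (i t)
  /-- the images of the factors are independent -/
  independent : ∀ (T' : Finset T) (a : ∀ t, A t), (∀ t ∈ T', a t ≠ ⊥) →
    T'.inf (fun t => i t (a t)) ≠ ⊥
  /-- the images of the factors generate the algebra of the product -/
  generates : ∀ S : Set B, IsMClosed m S → (∀ t a, i t a ∈ S) → S = Set.univ

attribute [instance] BProduct.inst

/-- `P ≤ Q` in the preorder of the `(m, 0)`-products: there is an `m`-homomorphism `h : Q → P` with
`i^P_t = h ∘ i^Q_t` for all `t`. -/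
def BProduct.Below {m : Cardinal.{u}} {T : Type u} {A : T → Type u} [∀ t, BooleanAlgebra (A t)]
    (P Q : BProduct m A) : Prop :=
  ∃ h : BoundedLatticeHom Q.B P.B, IsMHom m h ∧ ∀ t a, P.i t a = h (Q.i t a)

/-- A product is minimal if the (nonzero) meets `⋀_{t ∈ T'} i_t(a_t)` with `T'` finite are dense in
it. -/
def BProduct.IsMinimal {m : Cardinal.{u}} {T : Type u} {A : T → Type u}
    [∀ t, BooleanAlgebra (A t)] (P : BProduct m A) : Prop :=
  ∀ b : P.B, b ≠ ⊥ → ∃ (T' : Finset T) (a : ∀ t, A t),
    T'.inf (fun t => P.i t (a t)) ≠ ⊥ ∧ T'.inf (fun t => P.i t (a t)) ≤ b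

/-- The family with all the factors equal to the Boolean algebra of the subsets of a set with two
elements. -/
abbrev Four (T : Type u) : T → Type u := fun _ => Set (ULift.{u} Bool)

section general

variable {m : Cardinal.{u}}

/-- Homomorphisms from finite algebras are `m`-homomorphisms. -/
theorem isMHom_of_finite {A B : Type u} [BooleanAlgebra A] [BooleanAlgebra B] [Finite A]
    (h : BoundedLatticeHom A B) : IsMHom m h := by
  classical
  intro s _
  have hs : s.Finite := Set.toFinite s
  constructor
  · intro a ha
    have h1 : hs.toFinset.sup id = a := by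
      have : IsLUB (hs.toFinset : Set A) (hs.toFinset.sup id) := by
        have := Finset.isLUB_sup_id (s := hs.toFinset)
        exact this
      rw [Set.Finite.coe_toFinset] at this
      exact this.unique ha
    rw [← h1, map_finset_sup]
    have h2 := Finset.isLUB_sup_id (s := hs.toFinset.image h)
    rw [Finset.sup_image, Finset.coe_image, Set.Finite.coe_toFinset] at h2
    exact h2
  · intro a ha
    have h1 : hs.toFinset.inf id = a := by
      have : IsGLB (hs.toFinset : Set A) (hs.toFinset.inf id) := by
        have := Finset.isGLB_inf_id (s := hs.toFinset)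
        exact this
      rw [Set.Finite.coe_toFinset] at this
      exact this.unique ha
    rw [← h1, map_finset_inf]
    have h2 := Finset.isGLB_inf_id (s := hs.toFinset.image h)
    rw [Finset.inf_image, Finset.coe_image, Set.Finite.coe_toFinset] at h2
    exact h2

end general

section field

variable {T : Type u}

/-- The bit of `F` at `t`. -/
noncomputable def bit (F : Finset T) (t : T) : ULift.{u} Bool := by
  classical exact ULift.up (decide (t ∈ F))

/-- The embedding of the factor `t` in the field of all sets of finite subsets of `T`. -/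
noncomputable def emb (t : T) : BoundedLatticeHom (Set (ULift.{u} Bool)) (Set (Finset T)) where
  toFun S := {F | bit F t ∈ S}
  map_sup' _ _ := rfl
  map_inf' _ _ := rfl
  map_top' := rfl
  map_bot' := rfl

theorem mem_emb {t : T} {S : Set (ULift.{u} Bool)} {F : Finset T} : F ∈ emb t S ↔ bit F t ∈ S :=
  Iff.rfl

theorem bit_injective {F G : Finset T} (h : ∀ t, bit F t = bit G t) : F = G := by
  classical
  ext t
  have := h t
  unfold bit at this
  simpa using this

/-- The singleton `{F}` is the meet of the sets given by the bits of `F`. -/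
theorem isGLB_singleton (F : Finset T) :
    IsGLB (Set.range fun t => emb t {bit F t}) ({F} : Set (Finset T)) := by
  constructor
  · rintro _ ⟨t, rfl⟩ G hG
    rw [Set.mem_singleton_iff] at hG
    subst hG
    exact Set.mem_singleton _
  · intro S hS G hG
    rw [Set.mem_singleton_iff]
    refine bit_injective fun t => ?_
    exact hS ⟨t, rfl⟩ hG

theorem isLUB_singletons (S : Set (Finset T)) :
    IsLUB ((fun F => ({F} : Set (Finset T))) '' S) S := by
  constructor
  · rintro _ ⟨F, hF, rfl⟩ G hG
    rw [Set.mem_singleton_iff] at hG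
    exact hG ▸ hF
  · intro U hU F hF
    exact hU ⟨F, hF, rfl⟩ (Set.mem_singleton F)

/-- The product of the family `Four T` whose algebra is the field of all sets of finite subsets of
`T`. -/
noncomputable def fieldProduct (m : Cardinal.{u}) (hT : ℵ₀ ≤ #T) (hm : #T ≤ m) :
    BProduct m (Four T) where
  B := Set (Finset T)
  i := emb
  complete s _ := ⟨⟨_, isLUB_sSup s⟩, ⟨_, isGLB_sInf s⟩⟩
  injective t := by
    classical
    intro S S' h
    ext b
    obtain ⟨F, hF⟩ : ∃ F : Finset T, bit F t = b := by
      rcases b with ⟨_ | _⟩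
      · exact ⟨∅, by simp [bit]⟩
      · exact ⟨{t}, by simp [bit]⟩
    rw [← hF, ← mem_emb, ← mem_emb, h]
  isMHom t := isMHom_of_finite _
  independent T' a ha := by
    classical
    have h1 : ∀ t, ∃ b : Bool, t ∈ T' → ULift.up b ∈ a t := by
      intro t
      by_cases ht : t ∈ T'
      · obtain ⟨⟨b⟩, hb⟩ := Set.nonempty_iff_ne_empty.2 (ha t ht)
        exact ⟨b, fun _ => hb⟩
      · exact ⟨true, fun h => absurd h ht⟩
    choose c hc using h1
    have h2 : T'.filter (fun t => c t = true) ∈ T'.inf (fun t => emb t (a t)) := by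
      have : ∀ U : Finset T, U ⊆ T' →
          T'.filter (fun t => c t = true) ∈ U.inf (fun t => emb t (a t)) := by
        intro U
        induction U using Finset.induction_on with
        | empty => intro _; exact Set.mem_univ _
        | insert t U ht ih =>
          intro hU
          rw [Finset.inf_insert]
          refine ⟨?_, ih ((Finset.subset_insert _ _).trans hU)⟩
          have htT : t ∈ T' := hU (Finset.mem_insert_self _ _)
          rw [mem_emb]
          have : bit (T'.filter (fun t => c t = true)) t = ULift.up (c t) := by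
            unfold bit
            congr 1
            by_cases h : c t = true
            · rw [h]; simp [htT, h]
            · rw [Bool.not_eq_true] at h; rw [h]; simp [h]
          rw [this]
          exact hc t htT
      exact this T' (Finset.Subset.refl _)
    intro h
    rw [h] at h2
    exact h2
  generates S hS hi := by
    have : Infinite T := Cardinal.infinite_iff.2 hT
    have h1 : ∀ F : Finset T, ({F} : Set (Finset T)) ∈ S := by
      intro F
      refine (hS.2 (Set.range fun t => emb t {bit F t}) ?_ (mk_range_le.trans hm)).2 _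
        (isGLB_singleton F)
      rintro _ ⟨t, rfl⟩
      exact hi t _
    rw [Set.eq_univ_iff_forall]
    intro U
    refine (hS.2 ((fun F => ({F} : Set (Finset T))) '' U) ?_ ?_).1 _ (isLUB_singletons U)
    · rintro _ ⟨F, _, rfl⟩
      exact h1 F
    · refine (mk_image_le.trans (mk_set_le U)).trans ?_
      rw [Cardinal.mk_finset_of_infinite]
      exact hm

end field

section minimal

variable {T : Type u} {m : Cardinal.{u}}

/-- In a minimal product the infinite meets of the generators vanish. -/
theorem isGLB_bot (hT : ℵ₀ ≤ #T) (M : BProduct m (Four T)) (hM : M.IsMinimal)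
    (c : T → ULift.{u} Bool) :
    IsGLB (Set.range fun t => M.i t {c t}) ⊥ := by
  classical
  have : Infinite T := Cardinal.infinite_iff.2 hT
  refine ⟨fun _ _ => bot_le, fun b hb => ?_⟩
  by_contra hb0
  have hb1 : b ≠ ⊥ := fun h => hb0 (h ▸ le_rfl)
  obtain ⟨T', a, h1, h2⟩ := hM b hb1
  obtain ⟨t₀, ht₀⟩ := Infinite.exists_notMem_finset T'
  have h3 : ∀ t ∈ T', a t ≠ ⊥ := by
    intro t ht h
    apply h1
    rw [eq_bot_iff]
    refine (Finset.inf_le ht).trans ?_
    rw [h, map_bot]
  have h4 := M.independent (insert t₀ T')
    (fun t => if t = t₀ then ({c t₀}ᶜ : Set (ULift.{u} Bool)) else a t) (by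
      intro t ht
      by_cases h : t = t₀
      · simp only [h, if_true]
        intro h5
        have h6 : (ULift.up (!(c t₀).down) : ULift.{u} Bool) ∈ ({c t₀}ᶜ : Set (ULift.{u} Bool)) := by
          rw [Set.mem_compl_iff, Set.mem_singleton_iff]
          intro h7
          have h8 := congrArg ULift.down h7
          simp at h8
        rw [h5] at h6
        exact h6
      · simp only [h, if_false]
        exact h3 t ((Finset.mem_insert.1 ht).resolve_left h))
  apply h4
  rw [Finset.inf_insert, if_pos rfl]
  have h5 : T'.inf (fun t => M.i t (if t = t₀ then ({c t₀}ᶜ : Set (ULift.{u} Bool)) else a t)) =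
      T'.inf (fun t => M.i t (a t)) := by
    refine Finset.inf_congr rfl fun t ht => ?_
    rw [if_neg]
    rintro rfl
    exact ht₀ ht
  rw [h5, eq_bot_iff]
  calc M.i t₀ {c t₀}ᶜ ⊓ T'.inf (fun t => M.i t (a t))
      ≤ M.i t₀ {c t₀}ᶜ ⊓ M.i t₀ {c t₀} :=
        inf_le_inf_left _ (h2.trans (hb ⟨t₀, rfl⟩))
    _ = M.i t₀ ({c t₀}ᶜ ⊓ {c t₀}) := (map_inf _ _ _).symm
    _ = ⊥ := by rw [compl_inf_self, map_bot]
    _ ≤ ⊥ := le_rfl

/-- No product is below both the field product and a minimal product. -/
theorem no_lower_bound (hT : ℵ₀ ≤ #T) (hm : #T ≤ m) (M : BProduct m (Four T)) (hM : M.IsMinimal)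
    (S : BProduct m (Four T)) (h1 : S.Below (fieldProduct m hT hm)) (h2 : S.Below M) : False := by
  have : Infinite T := Cardinal.infinite_iff.2 hT
  obtain ⟨h, hh, hi⟩ := h1
  obtain ⟨g, hg, gi⟩ := h2
  have key : ∀ F : Finset T, h ({F} : Set (Finset T)) = ⊥ := by
    intro F
    have e1 := (hh (Set.range fun t => emb t {bit F t}) (mk_range_le.trans hm)).2 _
      (isGLB_singleton F)
    have e2 := (hg (Set.range fun t => M.i t {bit F t}) (mk_range_le.trans hm)).2 _
      (isGLB_bot hT M hM (bit F))
    have e3 : (h '' Set.range fun t => emb t {bit F t}) = Set.range fun t => S.i t {bit F t} := by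
      ext z
      constructor
      · rintro ⟨_, ⟨t, rfl⟩, rfl⟩
        exact ⟨t, hi t _⟩
      · rintro ⟨t, rfl⟩
        exact ⟨_, ⟨t, rfl⟩, (hi t _).symm⟩
    have e4 : (g '' Set.range fun t => M.i t {bit F t}) = Set.range fun t => S.i t {bit F t} := by
      ext z
      constructor
      · rintro ⟨_, ⟨t, rfl⟩, rfl⟩
        exact ⟨t, gi t _⟩
      · rintro ⟨t, rfl⟩
        exact ⟨_, ⟨t, rfl⟩, (gi t _).symm⟩
    rw [e3] at e1
    rw [e4, map_bot] at e2
    exact e1.unique e2
  have h3 := (hh ((fun F => ({F} : Set (Finset T))) '' Set.univ) (by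
    refine (mk_image_le.trans (mk_set_le _)).trans ?_
    rw [Cardinal.mk_finset_of_infinite]
    exact hm)).1 _ (isLUB_singletons Set.univ)
  have h4 : h (⊤ : Set (Finset T)) = ⊥ := by
    refine h3.unique ⟨?_, fun _ _ => bot_le⟩
    rintro _ ⟨_, ⟨F, _, rfl⟩, rfl⟩
    exact (key F).le
  have h5 := S.independent ∅ (fun _ => ⊥) (by simp)
  apply h5
  rw [Finset.inf_empty, ← h4]
  exact (map_top h).symm

end minimal

section regular

variable {T : Type u}

open TopologicalSpace Heyting

/-- The clopen set `{x | x_t ∈ S}`. -/
def opn (t : T) (S : Set (ULift.{u} Bool)) : Opens (T → Bool) :=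
  ⟨{x | ULift.up (x t) ∈ S}, by
    have : {x : T → Bool | ULift.up (x t) ∈ S} = (fun x : T → Bool => x t) ⁻¹' {b | ULift.up b ∈ S} :=
      rfl
    rw [this]
    exact (isOpen_discrete _).preimage (continuous_apply t)⟩

theorem mem_opn {t : T} {S : Set (ULift.{u} Bool)} {x : T → Bool} :
    x ∈ opn t S ↔ ULift.up (x t) ∈ S := Iff.rfl

theorem opn_compl (t : T) (S : Set (ULift.{u} Bool)) : (opn t S)ᶜ = opn t Sᶜ := by
  apply IsCompl.compl_eq
  constructor
  · rw [disjoint_iff, eq_bot_iff]
    rintro x ⟨h1, h2⟩
    exact (h2 h1).elim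
  · rw [codisjoint_iff, eq_top_iff]
    rintro x -
    rcases em (ULift.up (x t) ∈ S) with h | h
    · exact Or.inl h
    · exact Or.inr h

theorem opn_regular (t : T) (S : Set (ULift.{u} Bool)) : Heyting.IsRegular (opn t S) := by
  unfold Heyting.IsRegular
  rw [opn_compl, opn_compl, compl_compl]

/-- The clopen set `{x | x_t ∈ S}` as a regular open set. -/
def reg (t : T) (S : Set (ULift.{u} Bool)) : Regular (Opens (T → Bool)) :=
  ⟨opn t S, opn_regular t S⟩

theorem coe_reg (t : T) (S : Set (ULift.{u} Bool)) :
    ((reg t S : Regular (Opens (T → Bool))) : Opens (T → Bool)) = opn t S := rfl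

theorem coe_inf' (a b : Regular (Opens (T → Bool))) :
    ((a ⊓ b : Regular (Opens (T → Bool))) : Opens (T → Bool)) = (a : Opens (T → Bool)) ⊓ b := rfl

theorem coe_sup' (a b : Regular (Opens (T → Bool))) :
    ((a ⊔ b : Regular (Opens (T → Bool))) : Opens (T → Bool)) = ((a : Opens (T → Bool)) ⊔ b)ᶜᶜ :=
  rfl

theorem reg_sup (t : T) (S S' : Set (ULift.{u} Bool)) : reg t (S ⊔ S') = reg t S ⊔ reg t S' := by
  apply Regular.coe_injective
  rw [coe_sup', coe_reg, coe_reg, coe_reg]
  have : opn t S ⊔ opn t S' = opn t (S ⊔ S') := by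
    ext x
    rfl
  rw [this]
  exact (opn_regular t _).symm

theorem reg_bot (t : T) : reg t (⊥ : Set (ULift.{u} Bool)) = ⊥ := by
  apply Regular.coe_injective
  rw [Regular.coe_bot]
  ext x
  exact Iff.rfl

/-- The embedding of the factor `t` in the algebra of the regular open sets. -/
def emb' (t : T) : BoundedLatticeHom (Set (ULift.{u} Bool)) (Regular (Opens (T → Bool))) where
  toFun := reg t
  map_sup' := reg_sup t
  map_inf' _ _ := rfl
  map_top' := rfl
  map_bot' := reg_bot t

theorem mem_emb' {t : T} {S : Set (ULift.{u} Bool)} {x : T → Bool} :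
    x ∈ ((emb' t S : Regular (Opens (T → Bool))) : Opens (T → Bool)) ↔ ULift.up (x t) ∈ S :=
  Iff.rfl

theorem mem_inf' {U : Finset T} {a : T → Set (ULift.{u} Bool)} {x : T → Bool} :
    x ∈ ((U.inf fun t => emb' t (a t) : Regular (Opens (T → Bool))) : Opens (T → Bool)) ↔
      ∀ t ∈ U, ULift.up (x t) ∈ a t := by
  classical
  induction U using Finset.induction_on with
  | empty => simp [Regular.coe_top]
  | insert t U ht ih =>
    rw [Finset.inf_insert, Finset.forall_mem_insert, ← ih]
    exact Iff.rfl

theorem exists_basic {b : Opens (T → Bool)} {x : T → Bool} (hx : x ∈ b) :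
    ∃ U : Finset T, ∀ y : T → Bool, (∀ t ∈ U, y t = x t) → y ∈ b := by
  obtain ⟨I, u, h1, h2⟩ := isOpen_pi_iff.1 b.isOpen x hx
  refine ⟨I, fun y hy => h2 ?_⟩
  intro t ht
  rw [hy t ht]
  exact (h1 t ht).2

/-- The basic sets. -/
noncomputable def basic (p : Finset T × Finset T) : Regular (Opens (T → Bool)) :=
  p.1.inf fun t => emb' t {bit p.2 t}

theorem exists_basic' {b : Opens (T → Bool)} {x : T → Bool} (hx : x ∈ b) :
    ∃ p : Finset T × Finset T, x ∈ (basic p : Opens (T → Bool)) ∧
      (basic p : Opens (T → Bool)) ≤ b := by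
  classical
  obtain ⟨U, hU⟩ := exists_basic hx
  have key : ∀ t ∈ U, bit (U.filter fun t => x t = true) t = ULift.up (x t) := by
    intro t ht
    unfold bit
    congr 1
    by_cases h : x t = true
    · rw [h]; simp [ht, h]
    · rw [Bool.not_eq_true] at h; rw [h]; simp [h]
  refine ⟨⟨U, U.filter fun t => x t = true⟩, ?_, ?_⟩
  · rw [basic, mem_inf']
    intro t ht
    rw [key t ht]
    exact Set.mem_singleton _
  · intro y hy
    apply hU y
    intro t ht
    have : y ∈ (basic ⟨U, U.filter fun t => x t = true⟩ : Opens (T → Bool)) := hy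
    rw [basic, mem_inf'] at this
    have := this t ht
    rw [key t ht, Set.mem_singleton_iff] at this
    exact congrArg ULift.down this

/-- The product of the family `Four T` whose algebra is the algebra of the regular open subsets of
`{0, 1}^T`. -/
noncomputable def regularProduct (m : Cardinal.{u}) (hT : ℵ₀ ≤ #T) (hm : #T ≤ m) :
    BProduct m (Four T) where
  B := Regular (Opens (T → Bool))
  i := emb'
  complete s _ := by
    let _ := (Regular.gi (α := Opens (T → Bool))).liftCompleteLattice
    exact ⟨⟨_, isLUB_sSup s⟩, ⟨_, isGLB_sInf s⟩⟩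
  injective t := by
    intro S S' h
    ext b
    have : (fun _ : T => b.down) ∈ ((emb' t S : Regular (Opens (T → Bool))) : Opens (T → Bool)) ↔
        (fun _ : T => b.down) ∈ ((emb' t S' : Regular (Opens (T → Bool))) : Opens (T → Bool)) := by
      rw [h]
    exact this
  isMHom t := isMHom_of_finite _
  independent T' a ha := by
    classical
    have h1 : ∀ t, ∃ b : Bool, t ∈ T' → ULift.up b ∈ a t := by
      intro t
      by_cases ht : t ∈ T'
      · obtain ⟨⟨b⟩, hb⟩ := Set.nonempty_iff_ne_empty.2 (ha t ht)
        exact ⟨b, fun _ => hb⟩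
      · exact ⟨true, fun h => absurd h ht⟩
    choose c hc using h1
    have h2 : c ∈ ((T'.inf fun t => emb' t (a t) : Regular (Opens (T → Bool))) :
        Opens (T → Bool)) := by
      rw [mem_inf']
      exact hc
    intro h
    rw [h] at h2
    exact h2
  generates S hS hi := by
    classical
    have : Infinite T := Cardinal.infinite_iff.2 hT
    have hm0 : ℵ₀ ≤ m := hT.trans hm
    have hbasic : ∀ p, basic p ∈ S := by
      rintro ⟨U, F⟩
      unfold basic
      simp only
      induction U using Finset.induction_on with
      | empty =>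
        rw [Finset.inf_empty]
        have := hi (Classical.arbitrary T) ⊤
        rwa [map_top] at this
      | insert t U ht ih =>
        rw [Finset.inf_insert]
        refine (hS.2 {emb' t {bit F t}, U.inf fun t => emb' t {bit F t}} ?_ ?_).2 _ isGLB_pair
        · rintro z (rfl | rfl)
          · exact hi t _
          · exact ih
        · exact ((Set.toFinite _).lt_aleph0.le).trans hm0
    rw [Set.eq_univ_iff_forall]
    intro b
    refine (hS.2 (basic '' {p | basic p ≤ b}) ?_ ?_).1 b ⟨?_, ?_⟩
    · rintro _ ⟨p, _, rfl⟩
      exact hbasic p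
    · refine (mk_image_le.trans (mk_set_le _)).trans ?_
      have h1 : #(Finset T × Finset T) = #T := by
        rw [← Cardinal.mul_def, Cardinal.mk_finset_of_infinite, Cardinal.mul_eq_self hT]
      rw [h1]
      exact hm
    · rintro _ ⟨p, hp, rfl⟩
      exact hp
    · intro U hU x hx
      obtain ⟨p, hp1, hp2⟩ := exists_basic' (b := (b : Opens (T → Bool))) hx
      have h1 : basic p ≤ U := hU ⟨p, hp2, rfl⟩
      exact h1 hp1

theorem regularProduct_isMinimal (m : Cardinal.{u}) (hT : ℵ₀ ≤ #T) (hm : #T ≤ m) :
    (regularProduct m hT hm).IsMinimal := by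
  classical
  intro b' hb'
  obtain ⟨b, hbb⟩ : ∃ b : Regular (Opens (T → Bool)), b = b' := ⟨b', rfl⟩
  have hb : b ≠ ⊥ := fun h => hb' (hbb ▸ h)
  rw [← hbb]
  have h1 : ((b : Regular (Opens (T → Bool))) : Opens (T → Bool)) ≠ ⊥ := by
    intro h
    apply hb
    apply Regular.coe_injective
    rw [Regular.coe_bot]
    exact h
  obtain ⟨x, hx⟩ : ∃ x, x ∈ ((b : Regular (Opens (T → Bool))) : Opens (T → Bool)) := by
    by_contra hcon
    push Not at hcon
    apply h1
    rw [eq_bot_iff]
    intro x hx
    exact (hcon x hx).elim
  obtain ⟨p, hp1, hp2⟩ := exists_basic' hx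
  refine ⟨p.1, fun t => {bit p.2 t}, ?_, hp2⟩
  intro h
  have h2 : basic p = ⊥ := h
  rw [h2] at hp1
  exact hp1

end regular

/-- **Main result.** Let `m` be an infinite cardinal and `T` an infinite set of cardinality at most
`m`. The family `A_t`, `t ∈ T`, with all `A_t` equal to the Boolean algebra with four elements has a
minimal Boolean `(m, 0)`-product, and it has an `(m, 0)`-product `B` such that no `(m, 0)`-product of
the family is below both `B` and some minimal `(m, 0)`-product. In particular there is no smallest
`(m, 0)`-product, and no minimal product is the smallest one. -/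
theorem result (m : Cardinal.{u}) (T : Type u) (hT : ℵ₀ ≤ #T) (hm : #T ≤ m) :
    (∃ M : BProduct m (Four T), M.IsMinimal) ∧
    (∃ B : BProduct m (Four T), ∀ M : BProduct m (Four T), M.IsMinimal →
      ¬ M.Below B ∧ ¬ ∃ S : BProduct m (Four T), S.Below B ∧ S.Below M) ∧
    (¬ ∃ S : BProduct m (Four T), ∀ P : BProduct m (Four T), S.Below P) ∧
    ∀ M : BProduct m (Four T), M.IsMinimal → ∃ P : BProduct m (Four T), ¬ M.Below P := by
  have hrefl : ∀ P : BProduct m (Four T), P.Below P := fun P =>
    ⟨BoundedLatticeHom.id _, fun s _ => ⟨fun a ha => by simpa using ha, fun a ha => by simpa using ha⟩,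
      fun _ _ => rfl⟩
  have key := fun (M : BProduct m (Four T)) (hM : M.IsMinimal) (S : BProduct m (Four T)) =>
    no_lower_bound hT hm M hM S
  refine ⟨⟨_, regularProduct_isMinimal m hT hm⟩, ⟨fieldProduct m hT hm, fun M hM => ⟨?_, ?_⟩⟩, ?_,
    fun M hM => ⟨fieldProduct m hT hm, fun h => key M hM M h (hrefl M)⟩⟩
  · intro h
    exact key M hM M h (hrefl M)
  · rintro ⟨S, h1, h2⟩
    exact key M hM S h1 h2
  · rintro ⟨S, hS⟩
    exact key _ (regularProduct_isMinimal m hT hm) S (hS _) (hS _)

end Pool.Agent.Results.MP_27bb78_al.NoSmallestProductH62
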